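import Mathlib

set_option autoImplicit false

/-! # The scalar function `θ(t) = 8 max(t - 1/2, 0)^3` -/

namespace Pool.Agent.V1197.SN

open Filter Topology

/-- the cube of the positive part -/
noncomputable def pc (m : ℕ) (t : ℝ) : ℝ := (max t 0) ^ (m + 1)

theorem hasDerivAt_pc (m : ℕ) (t : ℝ) :
    HasDerivAt (pc (m + 1)) ((m + 2 : ℝ) * pc m t) t := by
  rcases lt_trichotomy t 0 with h | h | h
  · have h1 : pc (m + 1) =ᶠ[𝓝 t] fun _ => 0 := by
      filter_upwards [Iio_mem_nhds h] with s hs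
      have : max s 0 = 0 := max_eq_right (le_of_lt hs)
      simp [pc, this]
    have h2 : max t 0 = 0 := max_eq_right h.le
    have h3 : (m + 2 : ℝ) * pc m t = 0 := by simp [pc, h2]
    rw [h3]
    exact (hasDerivAt_const t (0 : ℝ)).congr_of_eventuallyEq h1
  · subst h
    have h3 : (m + 2 : ℝ) * pc m 0 = 0 := by simp [pc]
    rw [h3, hasDerivAt_iff_isLittleO]
    have h4 : pc (m + 1) 0 = 0 := by simp [pc]
    simp only [h4, sub_zero, smul_zero]
    rw [Asymptotics.isLittleO_iff]
    intro c hc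
    have hc' : 0 < min c 1 := lt_min hc one_pos
    filter_upwards [Metric.ball_mem_nhds (0 : ℝ) hc'] with s hs
    have hs1 : |s| < min c 1 := by simpa using hs
    have hs2 : max s 0 ≤ |s| := max_le (le_abs_self s) (abs_nonneg s)
    have hs3 : 0 ≤ max s 0 := le_max_right _ _
    have h5 : (max s 0) ^ (m + 1 + 1) ≤ |s| ^ (m + 1 + 1) := pow_le_pow_left₀ hs3 hs2 _
    have h6 : |s| ^ (m + 1) ≤ |s| := by
      have := pow_le_pow_of_le_one (abs_nonneg s) (hs1.le.trans (min_le_right _ _))
        (show 1 ≤ m + 1 by omega)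
      simpa using this
    have h7 : |s| ^ (m + 1 + 1) ≤ c * |s| := by
      rw [pow_succ]
      have : |s| ^ (m + 1) ≤ c := h6.trans (hs1.le.trans (min_le_left _ _))
      exact mul_le_mul_of_nonneg_right this (abs_nonneg s)
    rw [Real.norm_eq_abs, Real.norm_eq_abs, pc, abs_of_nonneg (pow_nonneg hs3 _)]
    exact h5.trans h7
  · have h1 : pc (m + 1) =ᶠ[𝓝 t] fun s => s ^ (m + 2) := by
      filter_upwards [Ioi_mem_nhds h] with s hs
      have : max s 0 = s := max_eq_left (le_of_lt hs)
      simp [pc, this]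
    have h2 : max t 0 = t := max_eq_left h.le
    have h3 : (m + 2 : ℝ) * pc m t = ((m + 2 : ℕ) : ℝ) * t ^ (m + 2 - 1) := by
      simp [pc, h2]
    rw [h3]
    exact (hasDerivAt_pow (m + 2) t).congr_of_eventuallyEq h1

theorem continuous_pc (m : ℕ) : Continuous (pc m) := by
  unfold pc
  fun_prop

theorem contDiff_pc (m : ℕ) : ContDiff ℝ (m : WithTop ℕ∞) (pc m) := by
  induction m with
  | zero =>
    have h : ContDiff ℝ 0 (pc 0) := contDiff_zero.2 (continuous_pc 0)
    simpa using h
  | succ m ih =>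
    have hd : deriv (pc (m + 1)) = fun t => (m + 2 : ℝ) * pc m t := by
      funext t
      exact (hasDerivAt_pc m t).deriv
    have : ((m + 1 : ℕ) : WithTop ℕ∞) = (m : WithTop ℕ∞) + 1 := by push_cast; rfl
    rw [this, contDiff_succ_iff_deriv]
    refine ⟨fun t => (hasDerivAt_pc m t).differentiableAt, ?_, ?_⟩
    · intro h
      exact absurd h (by simp)
    · rw [hd]
      exact contDiff_const.mul ih

theorem pc_nonneg (m : ℕ) (t : ℝ) : 0 ≤ pc m t := pow_nonneg (le_max_right _ _) _

theorem pc_mono (m : ℕ) : Monotone (pc m) := by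
  intro s t h
  exact pow_le_pow_left₀ (le_max_right _ _) (max_le_max_right 0 h) _

theorem convexOn_pc (m : ℕ) : ConvexOn ℝ Set.univ (pc m) := by
  have h1 : ConvexOn ℝ Set.univ (fun t : ℝ => max t 0) :=
    (convexOn_id convex_univ).sup (convexOn_const (0 : ℝ) convex_univ)
  exact h1.pow (fun t _ => le_max_right _ _) (m + 1)

/-- `θ(t) = 8 max(t - 1/2, 0)^3` -/
noncomputable def th (t : ℝ) : ℝ := 8 * pc 2 (t - 1 / 2)

theorem contDiff_th : ContDiff ℝ 2 th := by
  have h := contDiff_pc 2
  have h2 : ContDiff ℝ 2 (pc 2) := by simpa using h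
  unfold th
  exact contDiff_const.mul (h2.comp (contDiff_id.sub contDiff_const))

theorem continuous_th : Continuous th := contDiff_th.continuous

theorem th_nonneg (t : ℝ) : 0 ≤ th t := mul_nonneg (by norm_num) (pc_nonneg _ _)

theorem th_mono : Monotone th := by
  intro s t h
  exact mul_le_mul_of_nonneg_left (pc_mono 2 (by linarith)) (by norm_num)

theorem convexOn_th : ConvexOn ℝ Set.univ th := by
  have h1 : ConvexOn ℝ Set.univ (fun t : ℝ => pc 2 (t - 1 / 2)) := by
    have := (convexOn_pc 2).translate_left (-(1/2 : ℝ))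
    simpa [Function.comp_def, sub_eq_add_neg] using this
  have h2 := h1.smul (show (0 : ℝ) ≤ 8 by norm_num)
  exact h2

theorem th_eq_zero {t : ℝ} (h : t ≤ 1 / 2) : th t = 0 := by
  have : max (t - 1 / 2) 0 = 0 := max_eq_right (by linarith)
  simp only [th, pc, this]
  norm_num

theorem th_one : th 1 = 1 := by
  have : max ((1 : ℝ) - 1 / 2) 0 = 1 / 2 := by
    rw [max_eq_left] <;> norm_num
  simp only [th, pc, this]
  norm_num

theorem le_one_of_th {t : ℝ} (h : th t ≤ 1) : t ≤ 1 := by
  by_contra hc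
  push Not at hc
  have h1 : (1 / 2 : ℝ) < t - 1 / 2 := by linarith
  have h2 : max (t - 1 / 2) 0 = t - 1 / 2 := max_eq_left (by linarith)
  have h3 : (1 / 2 : ℝ) ^ (2 + 1) < (t - 1 / 2) ^ (2 + 1) :=
    pow_lt_pow_left₀ h1 (by norm_num) (by norm_num)
  simp only [th, pc, h2] at h
  norm_num at h3 h
  linarith

end Pool.Agent.V1197.SN
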