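import Pool.Agent.V1197.SN.Gauge
import Pool.Agent.V1197.SN.Theta

set_option autoImplicit false

/-! # The norm on `c₀` -/

namespace Pool.Agent.V1197.SN

open Filter Topology

/-- `c₀` -/
abbrev C0 := ZeroAtInftyContinuousMap ℕ ℝ

/-- `ℓ²` -/
abbrev L2 := lp (fun _ : ℕ => ℝ) 2

theorem abs_coord_le (x : C0) (j : ℕ) : |x j| ≤ ‖x‖ := by
  have h := x.toBCF.norm_coe_le_norm j
  rwa [ZeroAtInftyContinuousMap.norm_toBCF_eq_norm] at h

theorem norm_le_of (x : C0) {C : ℝ} (hC : 0 ≤ C) (h : ∀ j, |x j| ≤ C) : ‖x‖ ≤ C := by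
  rw [← ZeroAtInftyContinuousMap.norm_toBCF_eq_norm]
  exact (BoundedContinuousFunction.norm_le hC).2 h

theorem tendsto_coord (x : C0) : Tendsto (fun j => x j) atTop (𝓝 0) := by
  have := x.zero_at_infty'
  rwa [cocompact_eq_cofinite, Nat.cofinite_eq_atTop] at this

/-- coordinate functional -/
noncomputable def ev (j : ℕ) : C0 →L[ℝ] ℝ :=
  LinearMap.mkContinuous
    { toFun := fun x => x j, map_add' := fun _ _ => rfl, map_smul' := fun _ _ => rfl } 1
    (fun x => by rw [one_mul]; exact abs_coord_le x j)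

@[simp] theorem ev_apply (j : ℕ) (x : C0) : ev j x = x j := rfl

theorem memlp_mul (a : L2) (x : C0) : Memℓp (fun j => x j * a j : ℕ → ℝ) 2 := by
  have h2 : (0 : ℝ) < (2 : ENNReal).toReal := by norm_num
  have ha : Summable fun j => ‖a j‖ ^ (2 : ENNReal).toReal := (lp.memℓp a).summable h2
  refine memℓp_gen ?_
  refine Summable.of_nonneg_of_le (fun j => by positivity) (fun j => ?_)
    (ha.mul_left (‖x‖ ^ (2 : ENNReal).toReal))
  rw [norm_mul, Real.mul_rpow (norm_nonneg _) (norm_nonneg _)]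
  gcongr
  exact abs_coord_le x j

/-- multiplication operator `c₀ → ℓ²` -/
noncomputable def DM (a : L2) : C0 →L[ℝ] L2 :=
  LinearMap.mkContinuous
    { toFun := fun x => ⟨fun j => x j * a j, memlp_mul a x⟩
      map_add' := fun x y => by
        ext j
        simp [add_mul]
      map_smul' := fun c x => by
        ext j
        simp [mul_assoc] } ‖a‖
    (fun x => by
      have h2 : (0 : ℝ) < (2 : ENNReal).toReal := by norm_num
      refine lp.norm_le_of_tsum_le h2 (by positivity) ?_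
      rw [Real.mul_rpow (norm_nonneg _) (norm_nonneg _), lp.norm_rpow_eq_tsum h2 a,
        ← tsum_mul_right]
      have ha : Summable fun j => ‖a j‖ ^ (2 : ENNReal).toReal := (lp.memℓp a).summable h2
      refine Summable.tsum_le_tsum (fun j => ?_) ((memlp_mul a x).summable h2)
        (ha.mul_right _)
      change ‖x j * a j‖ ^ (2 : ENNReal).toReal ≤ _
      rw [norm_mul, Real.mul_rpow (norm_nonneg _) (norm_nonneg _), mul_comm]
      gcongr
      exact abs_coord_le x j)

@[simp] theorem DM_apply (a : L2) (x : C0) (j : ℕ) : DM a x j = x j * a j := rfl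

theorem exists_weight : ∃ a : L2, ‖a‖ = 1 ∧ a 0 = 0 ∧ ∀ j, a (j + 1) ≠ 0 := by
  have h2 : (0 : ℝ) < (2 : ENNReal).toReal := by norm_num
  have hm : Memℓp (fun j => if j = 0 then 0 else (1 / 2 : ℝ) ^ j : ℕ → ℝ) 2 := by
    refine memℓp_gen ?_
    refine Summable.of_nonneg_of_le (fun j => by positivity) (fun j => ?_)
      (summable_geometric_of_lt_one (show (0 : ℝ) ≤ 1 / 2 by norm_num) (by norm_num))
    have h3 : (2 : ENNReal).toReal = ((2 : ℕ) : ℝ) := by norm_num
    rw [h3, Real.rpow_natCast]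
    split_ifs with hj
    · simp
    · rw [norm_pow, ← pow_mul]
      have : ‖(1 / 2 : ℝ)‖ = 1 / 2 := by norm_num
      rw [this]
      exact pow_le_pow_of_le_one (by norm_num) (by norm_num) (by omega)
  set w : L2 := ⟨_, hm⟩ with hw
  have hw1 : w 1 = 1 / 2 := by
    change (if (1 : ℕ) = 0 then (0 : ℝ) else (1 / 2 : ℝ) ^ 1) = 1 / 2
    norm_num
  have hne : w ≠ 0 := by
    intro h
    have : w 1 = 0 := by rw [h]; rfl
    rw [hw1] at this
    norm_num at this
  have hn : 0 < ‖w‖ := norm_pos_iff.2 hne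
  refine ⟨‖w‖⁻¹ • w, ?_, ?_, ?_⟩
  · rw [norm_smul, norm_inv, norm_norm, inv_mul_cancel₀ hn.ne']
  · have h0 : w 0 = 0 := by
      change (if (0 : ℕ) = 0 then (0 : ℝ) else (1 / 2 : ℝ) ^ 0) = 0
      simp
    change ‖w‖⁻¹ * w 0 = 0
    rw [h0, mul_zero]
  · intro j
    have h0 : w (j + 1) = (1 / 2 : ℝ) ^ (j + 1) := by
      change (if (j + 1 : ℕ) = 0 then (0 : ℝ) else (1 / 2 : ℝ) ^ (j + 1)) = _
      simp
    change ‖w‖⁻¹ * w (j + 1) ≠ 0
    rw [h0]
    positivity

/-- the coefficients of the coordinates -/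
noncomputable def cc (j : ℕ) : ℝ := if j = 0 then 10 else 1 / 4

/-- the coordinate part -/
noncomputable def q (j : ℕ) (x : C0) : ℝ := th (cc j * x j) + th (-(cc j * x j))

/-- the sum of the coordinate parts -/
noncomputable def Q (x : C0) : ℝ := ∑' j, q j x

theorem q_nonneg (j : ℕ) (x : C0) : 0 ≤ q j x := add_nonneg (th_nonneg _) (th_nonneg _)

theorem q_eq_zero {j : ℕ} {x : C0} (h : |cc j * x j| ≤ 1 / 2) : q j x = 0 := by
  rw [abs_le] at h
  rw [q, th_eq_zero (by linarith), th_eq_zero (by linarith), add_zero]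

theorem q_neg (j : ℕ) (x : C0) : q j (-x) = q j x := by
  have : (-x) j = - x j := rfl
  simp only [q, this]
  rw [mul_neg, neg_neg, add_comm]

theorem abs_le_of_q {j : ℕ} {x : C0} (h : q j x ≤ 1) : |cc j * x j| ≤ 1 := by
  rw [abs_le]
  have h1 := th_nonneg (cc j * x j)
  have h2 := th_nonneg (-(cc j * x j))
  have h3 := le_one_of_th (t := cc j * x j) (by unfold q at h; linarith)
  have h4 := le_one_of_th (t := -(cc j * x j)) (by unfold q at h; linarith)
  exact ⟨by linarith, h3⟩

theorem contDiff_q (j : ℕ) : ContDiff ℝ 2 (q j) := by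
  have h1 : ContDiff ℝ 2 (fun x : C0 => cc j * ev j x) :=
    contDiff_const.mul (ev j).contDiff
  exact (contDiff_th.comp h1).add (contDiff_th.comp h1.neg)

theorem convexOn_q (j : ℕ) : ConvexOn ℝ Set.univ (q j) := by
  have h1 : ConvexOn ℝ Set.univ (fun x : C0 => th (cc j * x j)) := by
    have := convexOn_th.comp_linearMap ((cc j • ev j : C0 →L[ℝ] ℝ) : C0 →ₗ[ℝ] ℝ)
    simpa [Function.comp_def] using this
  have h2 : ConvexOn ℝ Set.univ (fun x : C0 => th (-(cc j * x j))) := by
    have := convexOn_th.comp_linearMap ((-(cc j • ev j) : C0 →L[ℝ] ℝ) : C0 →ₗ[ℝ] ℝ)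
    simpa [Function.comp_def] using this
  exact h1.add h2

theorem q_eq_zero_of_le {j : ℕ} {x : C0} (hj : 1 ≤ j) (h : |x j| ≤ 2) : q j x = 0 := by
  refine q_eq_zero ?_
  have : cc j = 1 / 4 := by rw [cc, if_neg (by omega)]
  rw [this, abs_mul]
  have h4 : |(1 / 4 : ℝ)| = 1 / 4 := by norm_num
  rw [h4]
  linarith

theorem Q_eq {x : C0} {n : ℕ} (hn : 1 ≤ n) (h : ∀ j, n ≤ j → |x j| ≤ 2) :
    Q x = ∑ j ∈ Finset.range n, q j x := by
  refine tsum_eq_sum ?_
  intro j hj
  rw [Finset.mem_range, not_lt] at hj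
  exact q_eq_zero_of_le (hn.trans hj) (h j hj)

theorem exists_tail (x : C0) : ∃ n : ℕ, 1 ≤ n ∧ ∀ j, n ≤ j → |x j| ≤ 1 := by
  have h := (tendsto_coord x).abs
  rw [abs_zero] at h
  have h2 := (h.eventually_lt_const one_pos)
  rw [eventually_atTop] at h2
  obtain ⟨n, hn⟩ := h2
  exact ⟨n + 1, by omega, fun j hj => (hn j (by omega)).le⟩

theorem q_le_Q (j : ℕ) (x : C0) : q j x ≤ Q x := by
  obtain ⟨n, hn1, hn⟩ := exists_tail x
  have h := Q_eq (x := x) (n := n + j + 1) (by omega)
    (fun i hi => (hn i (by omega)).trans (by norm_num))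
  rw [h]
  exact Finset.single_le_sum (f := fun j => q j x) (fun i _ => q_nonneg i x)
    (Finset.mem_range.2 (by omega))

theorem Q_nonneg (x : C0) : 0 ≤ Q x := tsum_nonneg fun j => q_nonneg j x

theorem Q_neg (x : C0) : Q (-x) = Q x := by
  unfold Q
  exact tsum_congr fun j => q_neg j x

theorem contDiff_Q : ContDiff ℝ 2 Q := by
  rw [contDiff_iff_contDiffAt]
  intro x
  obtain ⟨n, hn1, hn⟩ := exists_tail x
  have h1 : Q =ᶠ[𝓝 x] fun y => ∑ j ∈ Finset.range n, q j y := by
    filter_upwards [Metric.ball_mem_nhds x one_pos] with y hy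
    refine Q_eq hn1 fun j hj => ?_
    have h2 := hn j hj
    have h3 : |(y - x) j| ≤ ‖y - x‖ := abs_coord_le _ j
    have h4 : (y - x) j = y j - x j := rfl
    rw [mem_ball_iff_norm] at hy
    rw [h4] at h3
    have h5 : |y j| ≤ |y j - x j| + |x j| := by
      have := abs_add_le (y j - x j) (x j)
      simpa using this
    linarith
  refine ContDiffAt.congr_of_eventuallyEq ?_ h1
  exact (ContDiff.sum fun j _ => contDiff_q j).contDiffAt

theorem convexOn_Q : ConvexOn ℝ Set.univ Q := by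
  refine ⟨convex_univ, ?_⟩
  intro x _ y _ a b ha hb hab
  obtain ⟨n, hn1, hn⟩ := exists_tail x
  obtain ⟨m, hm1, hm⟩ := exists_tail y
  have hx := Q_eq (x := x) (n := n + m) (by omega)
    (fun i hi => (hn i (by omega)).trans (by norm_num))
  have hy := Q_eq (x := y) (n := n + m) (by omega)
    (fun i hi => (hm i (by omega)).trans (by norm_num))
  have hxy := Q_eq (x := a • x + b • y) (n := n + m) (by omega)
    (fun i hi => by
      have h1 := hn i (by omega)
      have h2 := hm i (by omega)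
      have h3 : (a • x + b • y) i = a * x i + b * y i := rfl
      rw [h3]
      have h4 : |a * x i + b * y i| ≤ a * |x i| + b * |y i| := by
        refine (abs_add_le _ _).trans ?_
        rw [abs_mul, abs_mul, abs_of_nonneg ha, abs_of_nonneg hb]
      have h5 : a * |x i| ≤ a := by nlinarith
      have h6 : b * |y i| ≤ b := by nlinarith
      linarith)
  rw [hx, hy, hxy, Finset.smul_sum, Finset.smul_sum, ← Finset.sum_add_distrib]
  refine Finset.sum_le_sum fun j _ => ?_
  exact (convexOn_q j).2 (Set.mem_univ _) (Set.mem_univ _) ha hb hab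

/-- the functional `h` -/
noncomputable def hh (a : L2) : C0 →L[ℝ] ℝ := (innerSL ℝ a) ∘L (DM a)

theorem hh_apply (a : L2) (x : C0) : hh a x = inner ℝ a (DM a x) := rfl

/-- the operator `S` -/
noncomputable def SS (a : L2) : C0 →L[ℝ] L2 :=
  DM a - (hh a).smulRight a + (ev 0).smulRight (lp.single 2 0 (1 : ℝ) : L2)

theorem SS_apply (a : L2) (x : C0) :
    SS a x = DM a x - hh a x • a + x 0 • (lp.single 2 0 (1 : ℝ) : L2) := rfl

theorem SS_coord_zero {a : L2} (ha0 : a 0 = 0) (x : C0) : SS a x 0 = x 0 := by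
  rw [SS_apply]
  change x 0 * a 0 - hh a x * a 0 + x 0 * (lp.single 2 0 (1 : ℝ) : L2) 0 = x 0
  rw [ha0]
  simp

theorem SS_coord_succ (a : L2) (x : C0) (j : ℕ) :
    SS a x (j + 1) = (x (j + 1) - hh a x) * a (j + 1) := by
  rw [SS_apply]
  change x (j + 1) * a (j + 1) - hh a x * a (j + 1)
    + x 0 * (lp.single 2 0 (1 : ℝ) : L2) (j + 1) = _
  simp
  ring

/-- the seminorm `U` -/
noncomputable def U (a : L2) (x : C0) : ℝ := ‖DM a x‖ + ‖SS a x‖

theorem abs_hh_le {a : L2} (ha : ‖a‖ = 1) (x : C0) : |hh a x| ≤ ‖DM a x‖ := by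
  rw [hh_apply]
  have := abs_real_inner_le_norm a (DM a x)
  rwa [ha, one_mul] at this

theorem abs_zero_le {a : L2} (ha0 : a 0 = 0) (x : C0) : |x 0| ≤ ‖SS a x‖ := by
  have := lp.norm_apply_le_norm (p := 2) (by norm_num) (SS a x) 0
  rwa [SS_coord_zero ha0] at this

theorem U_nonneg (a : L2) (x : C0) : 0 ≤ U a x := add_nonneg (norm_nonneg _) (norm_nonneg _)

theorem continuous_U (a : L2) : Continuous (U a) := by
  unfold U
  fun_prop

theorem U_smul (a : L2) (c : ℝ) (x : C0) : U a (c • x) = |c| * U a x := by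
  simp only [U, map_smul, norm_smul, Real.norm_eq_abs]
  ring

theorem U_neg (a : L2) (x : C0) : U a (-x) = U a x := by
  simp only [U, map_neg, norm_neg]

theorem convexOn_U (a : L2) : ConvexOn ℝ Set.univ (U a) := by
  have h1 : ConvexOn ℝ Set.univ (fun x : C0 => ‖DM a x‖) := by
    have := (convexOn_norm (E := L2) convex_univ).comp_linearMap ((DM a : C0 →L[ℝ] L2) : C0 →ₗ[ℝ] L2)
    simpa [Function.comp_def] using this
  have h2 : ConvexOn ℝ Set.univ (fun x : C0 => ‖SS a x‖) := by
    have := (convexOn_norm (E := L2) convex_univ).comp_linearMap ((SS a : C0 →L[ℝ] L2) : C0 →ₗ[ℝ] L2)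
    simpa [Function.comp_def] using this
  exact h1.add h2

theorem norm_single_zero : ‖(lp.single 2 0 (1 : ℝ) : L2)‖ = 1 := by
  rw [lp.norm_single (by norm_num)]
  simp

theorem norm_DM_le {a : L2} (ha : ‖a‖ = 1) (x : C0) : ‖DM a x‖ ≤ ‖x‖ := by
  have h : ‖DM a‖ ≤ ‖a‖ := LinearMap.mkContinuous_norm_le _ (norm_nonneg _) _
  have := (DM a).le_of_opNorm_le h x
  rwa [ha, one_mul] at this

theorem U_le {a : L2} (ha : ‖a‖ = 1) (x : C0) : U a x ≤ 4 * ‖x‖ := by
  have h1 := norm_DM_le ha x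
  have h2 := abs_hh_le ha x
  have h3 := abs_coord_le x 0
  have h4 : ‖SS a x‖ ≤ ‖DM a x‖ + |hh a x| + |x 0| := by
    rw [SS_apply]
    refine (norm_add_le _ _).trans ?_
    refine add_le_add ((norm_sub_le _ _).trans ?_) ?_
    · rw [norm_smul, ha, mul_one, Real.norm_eq_abs]
    · rw [norm_smul, norm_single_zero, mul_one, Real.norm_eq_abs]
  unfold U
  linarith

/-- the function `Φ` -/
noncomputable def Ph (a : L2) (x : C0) : ℝ := th (U a x) + Q x

theorem convexOn_Ph (a : L2) : ConvexOn ℝ Set.univ (Ph a) := by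
  refine ConvexOn.add ?_ convexOn_Q
  refine ConvexOn.comp (g := th) (f := U a) ?_ (convexOn_U a) (th_mono.monotoneOn _)
  refine convexOn_th.subset (Set.subset_univ _) ?_
  rw [Set.image_univ]
  have : Convex ℝ (Set.range (U a)) := by
    refine Set.OrdConnected.convex ?_
    exact (isPreconnected_range (continuous_U a)).ordConnected
  exact this

theorem continuous_Ph (a : L2) : Continuous (Ph a) :=
  (continuous_th.comp (continuous_U a)).add contDiff_Q.continuous

theorem Ph_neg (a : L2) (x : C0) : Ph a (-x) = Ph a x := by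
  rw [Ph, Ph, U_neg, Q_neg]

theorem Ph_eq_zero {a : L2} (ha : ‖a‖ = 1) {x : C0} (hx : ‖x‖ ≤ 1 / 20) : Ph a x = 0 := by
  have h1 := U_le ha x
  have hj : ∀ j, q j x = 0 := by
    intro j
    refine q_eq_zero ?_
    have h2 := abs_coord_le x j
    have h3 : |cc j| ≤ 10 := by
      rw [cc]
      split_ifs <;> norm_num
    rw [abs_mul]
    have : |cc j| * |x j| ≤ 10 * (1 / 20) :=
      mul_le_mul h3 (h2.trans hx) (abs_nonneg _) (by norm_num)
    linarith
  rw [Ph, th_eq_zero (by linarith), Q]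
  simp [hj]

theorem U_le_one_of_Ph {a : L2} {x : C0} (h : Ph a x ≤ 1) : U a x ≤ 1 := by
  have := Q_nonneg x
  exact le_one_of_th (by unfold Ph at h; linarith)

theorem coord_le_of_Ph {a : L2} {x : C0} (h : Ph a x ≤ 1) (j : ℕ) : |cc j * x j| ≤ 1 := by
  have h1 := q_le_Q j x
  have h2 := th_nonneg (U a x)
  exact abs_le_of_q (by unfold Ph at h; linarith)

theorem norm_le_of_Ph {a : L2} {x : C0} (h : Ph a x ≤ 1) : ‖x‖ ≤ 4 := by
  refine norm_le_of x (by norm_num) fun j => ?_
  have h1 := coord_le_of_Ph h j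
  rw [abs_mul] at h1
  have h3 : 1 / 4 ≤ |cc j| := by
    rw [cc]
    split_ifs <;> norm_num
  have := abs_nonneg (x j)
  nlinarith

theorem contDiffAt_Ph {a : L2} (ha0 : a 0 = 0) (haj : ∀ j, a (j + 1) ≠ 0)
    {x : C0} (h : Ph a x = 1) : ContDiffAt ℝ 2 (Ph a) x := by
  refine ContDiffAt.add ?_ contDiff_Q.contDiffAt
  by_cases hD : DM a x = 0
  · have hh0 : hh a x = 0 := by rw [hh_apply, hD, inner_zero_right]
    have hU : U a x = |x 0| := by
      rw [U, SS_apply, hD, hh0, norm_zero, zero_smul, sub_zero, zero_add, zero_add, norm_smul,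
        norm_single_zero, mul_one, Real.norm_eq_abs]
    have h10 := coord_le_of_Ph h.le 0
    rw [cc, if_pos rfl, abs_mul] at h10
    have h11 : |(10 : ℝ)| = 10 := by norm_num
    rw [h11] at h10
    have hlt : U a x < 1 / 2 := by rw [hU]; linarith
    have hev : (fun y => th (U a y)) =ᶠ[𝓝 x] fun _ => (0 : ℝ) := by
      filter_upwards [((continuous_U a).tendsto x).eventually_lt_const hlt] with y hy
      exact th_eq_zero hy.le
    exact contDiffAt_const.congr_of_eventuallyEq hev
  · have hS : SS a x ≠ 0 := by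
      intro hS
      have h0 : x 0 = 0 := by
        rw [← SS_coord_zero ha0 x, hS]
        rfl
      have hj : ∀ j, x (j + 1) = hh a x := by
        intro j
        have h1 := SS_coord_succ a x j
        rw [hS] at h1
        have h2 : (0 : ℝ) = (x (j + 1) - hh a x) * a (j + 1) := h1
        have h3 := (mul_eq_zero.1 h2.symm).resolve_right (haj j)
        linarith
      have hlim : Tendsto (fun j => x (j + 1)) atTop (𝓝 0) :=
        (tendsto_add_atTop_iff_nat 1).2 (tendsto_coord x)
      have hlim2 : Tendsto (fun j => x (j + 1)) atTop (𝓝 (hh a x)) := by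
        have : (fun j => x (j + 1)) = fun _ => hh a x := funext hj
        rw [this]
        exact tendsto_const_nhds
      have hh0 : hh a x = 0 := tendsto_nhds_unique hlim2 hlim
      apply hD
      have hx : x = 0 := by
        ext j
        rcases j with _ | j
        · exact h0
        · rw [hj, hh0]; rfl
      rw [hx, map_zero]
    have h1 : ContDiffAt ℝ 2 (fun y => ‖DM a y‖) x :=
      (contDiffAt_norm ℝ hD).comp x (DM a).contDiff.contDiffAt
    have h2 : ContDiffAt ℝ 2 (fun y => ‖SS a y‖) x :=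
      (contDiffAt_norm ℝ hS).comp x (SS a).contDiff.contDiffAt
    exact contDiff_th.contDiffAt.comp x (h1.add h2)

end Pool.Agent.V1197.SN
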