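import Mathlib

set_option autoImplicit false

/-! # Smoothness of the gauge of a convex body with smooth boundary -/

namespace Pool.Agent.V1197.SN

open Filter Topology

variable {X : Type*} [NormedAddCommGroup X] [NormedSpace ℝ X] [CompleteSpace X]

/-- If `Φ ((N x)⁻¹ x) = 1` for all `x` with `N x > 0`, and if `Φ` is `C^n` with non-zero radial
derivative at `(N x₀)⁻¹ x₀`, then the continuous function `N` is `C^n` at `x₀`. -/
theorem contDiffAt_of_level {N Φ : X → ℝ} {n : WithTop ℕ∞} (hn : n ≠ 0) (hNc : Continuous N)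
    (hN1 : ∀ x, 0 < N x → Φ ((N x)⁻¹ • x) = 1) {x₀ : X} (h0 : 0 < N x₀)
    (hΦ : ContDiffAt ℝ n Φ ((N x₀)⁻¹ • x₀)) (hd : fderiv ℝ Φ ((N x₀)⁻¹ • x₀) x₀ ≠ 0) :
    ContDiffAt ℝ n N x₀ := by
  classical
  set s₀ : ℝ := (N x₀)⁻¹ with hs₀
  set F : X × ℝ → ℝ := fun p => Φ (p.2 • p.1) with hF
  have hsm : ContDiffAt ℝ n (fun p : X × ℝ => p.2 • p.1) (x₀, s₀) :=
    contDiffAt_snd.smul contDiffAt_fst
  have cdf : ContDiffAt ℝ n F (x₀, s₀) :=
    ContDiffAt.comp (x₀, s₀) (g := Φ) (f := fun p : X × ℝ => p.2 • p.1) hΦ hsm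
  have hval : (fderiv ℝ F (x₀, s₀) ∘L .inr ℝ X ℝ) 1 = fderiv ℝ Φ (s₀ • x₀) x₀ := by
    have h1 : HasFDerivAt F (fderiv ℝ F (x₀, s₀)) (x₀, s₀) :=
      (cdf.differentiableAt hn).hasFDerivAt
    have h2 : HasFDerivAt Φ (fderiv ℝ Φ (s₀ • x₀)) (s₀ • x₀) :=
      (hΦ.differentiableAt hn).hasFDerivAt
    have h3 : HasDerivAt (fun s : ℝ => F (x₀, s)) ((fderiv ℝ F (x₀, s₀)) (0, 1)) s₀ := by
      have : HasDerivAt (fun s : ℝ => ((x₀, s) : X × ℝ)) (0, 1) s₀ :=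
        (hasDerivAt_const s₀ x₀).prodMk (hasDerivAt_id s₀)
      exact h1.comp_hasDerivAt s₀ this
    have h4 : HasDerivAt (fun s : ℝ => F (x₀, s)) ((fderiv ℝ Φ (s₀ • x₀)) x₀) s₀ := by
      have : HasDerivAt (fun s : ℝ => s • x₀) x₀ s₀ := by
        simpa using (hasDerivAt_id s₀).smul_const x₀
      exact h2.comp_hasDerivAt s₀ this
    have h5 := h3.unique h4
    simpa using h5
  have if₂ : (fderiv ℝ F (x₀, s₀) ∘L .inr ℝ X ℝ).IsInvertible := by
    set L : ℝ →L[ℝ] ℝ := fderiv ℝ F (x₀, s₀) ∘L .inr ℝ X ℝ with hL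
    have hne : L 1 ≠ 0 := by rw [hval]; exact hd
    refine ⟨ContinuousLinearEquiv.unitsEquivAut ℝ (Units.mk0 (L 1) hne), ?_⟩
    ext
    simp
  have hev := cdf.eventually_apply_eq_iff_implicitFunction hn if₂
  have hcs := cdf.contDiffAt_implicitFunction hn if₂
  have hself := cdf.implicitFunction_apply_self hn if₂
  set ψ := cdf.implicitFunction hn if₂ with hψ
  simp only at hcs hself
  have hFu : F (x₀, s₀) = 1 := hN1 x₀ h0
  have htend : Tendsto (fun x => ((x, (N x)⁻¹) : X × ℝ)) (𝓝 x₀) (𝓝 (x₀, s₀)) := by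
    refine tendsto_id.prodMk_nhds ?_
    exact (hNc.tendsto x₀).inv₀ h0.ne'
  have hpos : ∀ᶠ x in 𝓝 x₀, 0 < N x := (hNc.tendsto x₀).eventually_const_lt h0
  have hEq : (fun x => (ψ x)⁻¹) =ᶠ[𝓝 x₀] N := by
    filter_upwards [htend.eventually hev, hpos] with x hx hx0
    have h1 : F (x, (N x)⁻¹) = F (x₀, s₀) := by rw [hFu]; exact hN1 x hx0
    have h2 : ψ x = (N x)⁻¹ := hx.1 h1
    rw [h2, inv_inv]
  refine ContDiffAt.congr_of_eventuallyEq ?_ hEq.symm
  refine hcs.inv ?_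
  rw [hself]
  exact inv_ne_zero h0.ne'

/-- Smoothness of the gauge of a sublevel set of a convex function. -/
theorem contDiffAt_gauge {Φ : X → ℝ} {n : WithTop ℕ∞} (hn : n ≠ 0)
    (hconv : ConvexOn ℝ Set.univ Φ) (hcont : Continuous Φ) (h0 : Φ 0 < 1)
    {x₀ : X} (hx₀ : 0 < gauge {x | Φ x ≤ 1} x₀)
    (hΦ : ∀ y, Φ y = 1 → ContDiffAt ℝ n Φ y) :
    ContDiffAt ℝ n (gauge {x | Φ x ≤ 1}) x₀ := by
  set B : Set X := {x | Φ x ≤ 1} with hB
  have hBc : Convex ℝ B := by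
    have := hconv.convex_le 1
    simpa [hB] using this
  have hB0 : B ∈ 𝓝 (0 : X) := by
    have : ∀ᶠ x in 𝓝 (0 : X), Φ x < 1 := (hcont.tendsto 0).eventually_lt_const h0
    filter_upwards [this] with x hx using hx.le
  have hgc : Continuous (gauge B) := continuous_gauge hBc hB0
  have hN1 : ∀ x, 0 < gauge B x → Φ ((gauge B x)⁻¹ • x) = 1 := by
    intro x hx
    have h1 : gauge B ((gauge B x)⁻¹ • x) = 1 := by
      rw [gauge_smul_of_nonneg (inv_nonneg.2 hx.le), smul_eq_mul, inv_mul_cancel₀ hx.ne']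
    have h2 := (gauge_eq_one_iff_mem_frontier hBc hB0).1 h1
    exact frontier_le_subset_eq hcont continuous_const h2
  have hy := hN1 x₀ hx₀
  refine contDiffAt_of_level hn hgc hN1 hx₀ (hΦ _ hy) ?_
  set y : X := (gauge B x₀)⁻¹ • x₀ with hydef
  have hyx : x₀ = gauge B x₀ • y := by
    rw [hydef, smul_smul, mul_inv_cancel₀ hx₀.ne', one_smul]
  have hdy : HasFDerivAt Φ (fderiv ℝ Φ y) y := ((hΦ _ hy).differentiableAt hn).hasFDerivAt
  have hg : HasDerivAt (fun t : ℝ => Φ (t • y)) ((fderiv ℝ Φ y) y) 1 := by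
    have h2 : HasFDerivAt Φ (fderiv ℝ Φ y) ((1 : ℝ) • y) := by rwa [one_smul]
    have : HasDerivAt (fun s : ℝ => s • y) y 1 := by
      simpa using (hasDerivAt_id (1 : ℝ)).smul_const y
    exact h2.comp_hasDerivAt (1 : ℝ) this
  have hconv1 : ConvexOn ℝ Set.univ (fun t : ℝ => Φ (t • y)) := by
    have := hconv.comp_linearMap (LinearMap.toSpanSingleton ℝ X y)
    simpa [Function.comp_def] using this
  have hsl := hconv1.slope_le_of_hasDerivAt (Set.mem_univ (0 : ℝ)) (Set.mem_univ (1 : ℝ))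
    one_pos hg
  have hlt : 0 < fderiv ℝ Φ y y := by
    refine lt_of_lt_of_le ?_ hsl
    rw [slope_def_field]
    simp only [one_smul, zero_smul, hy, sub_zero, div_one]
    linarith
  have : fderiv ℝ Φ y x₀ = gauge B x₀ * fderiv ℝ Φ y y := by
    conv_lhs => rw [hyx]
    rw [map_smul, smul_eq_mul]
  rw [this]
  exact (mul_pos hx₀ hlt).ne'

end Pool.Agent.V1197.SN
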